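import Pool.Agent.Q26.TA.TA4
import Pool.Agent.TH872.GQ.BT

/-!
# The Brun–Titchmarsh inequality with the constant `1` for almost all classes to ALL moduli in short windows around the
elements of automatic sets, and around any integer after subtracting few elements of any set

From Mathlib: `Nat.totient`: Euler's function `φ`; `DFA ℕ σ`, `M.accepts`: finite automata and the words accepted by them;
`Nat.digits b v`: the digits of `v` in base `b`. The step from the variance of the primes to the inequality is from the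
starting files (`Pool.Agent.TH872.GQ.BT`).
-/

set_option autoImplicit false

namespace Pool.Agent.Results.MP_26a8c3_nt.AutomaticModuli

open Finset

/-- `N(x, y; q, l)` for `0 ≤ y ≤ x` and `0 ≤ l < q`: the number of the primes `p` with `x - y < p ≤ x` and
`p ≡ l (mod q)` -/
noncomputable def cnt (x y : ℝ) (q l : ℕ) : ℕ :=
  ((Ioc ⌊x - y⌋₊ ⌊x⌋₊).filter (fun p => p.Prime ∧ p % q = l)).card

open Classical in
/-- The modulus `q` is good: for all `l` with `0 ≤ l < q` and `gcd(l, q) = 1`, except for at most `φ(q) / (log q) ^ V` of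
them, `N(x, y; q, l) ≤ (1 + ε) y / (φ(q) log q)` for ALL real `x`, `y` with
`q (log q) ^ E ≤ y ≤ x ≤ q (log q) ^ (E + D)`. -/
def Good (ε : ℝ) (V E D q : ℕ) : Prop :=
  (((range q).filter (fun l => Nat.Coprime l q ∧ ∃ x y : ℝ, q * Real.log q ^ E ≤ y ∧ y ≤ x ∧
    x ≤ q * Real.log q ^ (E + D) ∧ (1 + ε) * (y / (Nat.totient q * Real.log q)) < cnt x y q l)).card : ℝ) ≤
    Nat.totient q / Real.log q ^ V

/-- ALL moduli `q ≥ N / log ^ κ N` at a distance of at most `log ^ A N` from `y` are good. -/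
def GoodWindow (ε : ℝ) (V E D κ A N : ℕ) (y : ℝ) : Prop :=
  ∀ q : ℕ, |(q : ℝ) - y| ≤ Real.log N ^ A → (N : ℝ) ≤ q * Real.log N ^ κ → Good ε V E D q

open Classical in
/-- The elements `v < N` of the automatic set given by the base `b` and the automaton `M`: the integers whose base
`b` digits are accepted by `M`. -/
noncomputable def aut {σ : Type} (b : ℕ) (M : DFA ℕ σ) (N : ℕ) : Finset ℕ :=
  (range N).filter fun v => Nat.digits b v ∈ M.accepts

lemma good_of (ε : ℝ) (hε : 0 < ε) (hε1 : ε ≤ 1) (V E D κ : ℕ) (hE : 2 * D + V + 2 ≤ E) : ∃ N₀ : ℕ, ∀ N : ℕ, N₀ ≤ N →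
    ∀ q : ℕ, (N : ℝ) ≤ q * Real.log N ^ κ → (q : ℝ) ≤ N ^ 2 → 
      Pool.Agent.Q26.TA.GoodM 1 (κ + (E + D + 2)) N q → Good ε V E D q := by
  obtain ⟨Q₀, hdet⟩ := Pool.Agent.TH872.GQ.BT.det ε hε hε1 E D V hE
  obtain ⟨n2, h2⟩ := Pool.Agent.H373R2.T7.ev_L' (2 ^ (E + D + 1) + 1)
  obtain ⟨n3, h3⟩ := Pool.Agent.H373R2.T7.ev_log' κ 1
  refine ⟨n2 + n3 + (Q₀ + 2) ^ 2, fun N hN q hq1 hq2 hgood => ?_⟩
  have hL := h2 N (by omega)
  have hs := h3 N (by omega)
  rw [one_mul] at hs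
  have hp2 : (0 : ℝ) < 2 ^ (E + D + 1) := by positivity
  have hL1 : 1 ≤ Real.log N := by linarith
  have hN4 : (Q₀ + 2) ^ 2 ≤ N := by omega
  have hN0 : (0 : ℝ) < N := by
    have : 0 < N := by
      have : 0 < (Q₀ + 2) ^ 2 := by positivity
      omega
    exact_mod_cast this
  have hqs : Real.sqrt N ≤ q := by
    have e1 : Real.sqrt N * Real.sqrt N = N := Real.mul_self_sqrt hN0.le
    have e2 : 0 < Real.sqrt N := Real.sqrt_pos.2 hN0
    have e3 : (N : ℝ) ≤ q * Real.sqrt N := hq1.trans (mul_le_mul_of_nonneg_left hs (Nat.cast_nonneg _))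
    have e4 : Real.sqrt N * Real.sqrt N ≤ q * Real.sqrt N := by
      rw [e1]
      exact e3
    exact le_of_mul_le_mul_right e4 e2
  have hQ2 : Q₀ + 2 ≤ q := by
    have e1 : ((Q₀ + 2 : ℕ) : ℝ) ≤ Real.sqrt N := by
      apply Real.le_sqrt_of_sq_le
      exact_mod_cast hN4
    exact_mod_cast e1.trans hqs
  have hq0 : (0 : ℝ) < q := by exact_mod_cast (by omega : 0 < q)
  have hlog : Real.log q ≤ 2 * Real.log N := by
    have := Real.log_le_log hq0 hq2
    rw [Real.log_pow] at this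
    exact_mod_cast this
  have hlog0 : 0 ≤ Real.log q := Real.log_natCast_nonneg _
  refine hdet q (by omega) fun x hx1 hx2 => ?_
  have e0 : (0 : ℝ) ≤ x := hq0.le.trans hx1
  have e1 : |Pool.Agent.Results.MP_5d318d_nt.ThinFamilyModuli.G x q - x * Real.log q| ≤ 1 * (x * Real.log q) := hgood x hx1 (hx2.trans (by
    apply mul_le_mul_of_nonneg_left _ hq0.le
    calc Real.log q ^ (E + D + 1) ≤ (2 * Real.log N) ^ (E + D + 1) := pow_le_pow_left₀ hlog0 hlog _
      _ = 2 ^ (E + D + 1) * Real.log N ^ (E + D + 1) := mul_pow _ _ _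
      _ ≤ Real.log N * Real.log N ^ (E + D + 1) := mul_le_mul_of_nonneg_right (by linarith) (by positivity)
      _ = Real.log N ^ (E + D + 2) := by rw [← pow_succ']
      _ ≤ Real.log N ^ (κ + (E + D + 2)) := pow_le_pow_right₀ hL1 (by omega)))
  have e2 := (abs_le.1 e1).2
  linarith

lemma sq_bound (κ κ' A B : ℕ) : ∃ N₀ : ℕ, ∀ N : ℕ, N₀ ≤ N → 1 ≤ Real.log N ∧ Real.log N ^ A + (B : ℝ) * N ≤ (N : ℝ) ^ 2 ∧
    Real.log N ^ κ ≤ Real.log N ^ (κ + κ') := by
  obtain ⟨n2, h2⟩ := Pool.Agent.H373R2.T7.ev_L' 1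
  obtain ⟨n3, h3⟩ := Pool.Agent.H373R2.T7.ev_log' A 1
  refine ⟨n2 + n3 + B + 1, fun N hN => ?_⟩
  have hL := h2 N (by omega)
  have hs := h3 N (by omega)
  rw [one_mul] at hs
  refine ⟨hL, ?_, pow_le_pow_right₀ hL (by omega)⟩
  have hN1 : (1 : ℝ) ≤ N := by exact_mod_cast (by omega : 1 ≤ N)
  have hNB : (B : ℝ) + 1 ≤ N := by exact_mod_cast (by omega : B + 1 ≤ N)
  have e1 : Real.sqrt N ≤ N := by
    rw [Real.sqrt_le_left (by linarith)]
    nlinarith
  nlinarith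

open Classical in
/-- Let `0 < ε ≤ 1`, `V`, `D`, `E ≥ 2D + V + 2`, `κ` and `A` be given.

(1) Let `b ≥ 2`, and let `M` be any automaton such that the automatic set `aut b M` is not sparse: for every `k` it has more
than `log ^ k N` elements below `N` for infinitely many `N`. Let `a ≠ 0`, `B` and `U` be fixed, let `N` be large and let `c` be
an arbitrary integer with `|c| ≤ B N`. Then for all elements `v < N` of the automatic set, with at most
`#(aut b M N) / log ^ U N` exceptions, ALL moduli `q ≥ N / log ^ κ N` with `|q - (c + a v)| ≤ log ^ A N` are good.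

(2) For every `l ≥ 2` there is a constant `C` such that for every sufficiently large `N` the following holds. Let `T` be an
arbitrary set of integers which contains an element of every interval `[x, l x]`, `x ≥ 1` (the constants do not depend on
`T`). Then there is a set `S` of at most `C (log log N) ^ 2` elements of `T` with the sum `∑ S ≤ N / 2`, such that ALL moduli
`q ≥ N / log ^ κ N` with `|q - (N - ∑ S)| ≤ log ^ A N` are good. -/
theorem result (ε : ℝ) (hε : 0 < ε) (hε1 : ε ≤ 1) (V E D κ A : ℕ) (hE : 2 * D + V + 2 ≤ E) :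
    (∀ (σ : Type) [Finite σ] (b : ℕ), 2 ≤ b → ∀ M : DFA ℕ σ,
      (∀ k : ℕ, ∃ᶠ N : ℕ in Filter.atTop, Real.log N ^ k < ((aut b M N).card : ℝ)) →
      ∀ a : ℤ, a ≠ 0 → ∀ B U : ℕ, ∃ N₀ : ℕ, ∀ N : ℕ, N₀ ≤ N → ∀ c : ℤ, |c| ≤ (B : ℤ) * N →
        (((aut b M N).filter fun v : ℕ => ¬ GoodWindow ε V E D κ A N ((c + a * v : ℤ) : ℝ)).card : ℝ) ≤
          ((aut b M N).card : ℝ) / Real.log N ^ U) ∧
    (∀ l : ℕ, 2 ≤ l → ∃ C : ℝ, ∃ N₀ : ℕ, ∀ T : Set ℕ,
      (∀ x : ℕ, 1 ≤ x → ∃ t ∈ T, x ≤ t ∧ t ≤ l * x) → ∀ N : ℕ, N₀ ≤ N →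
        ∃ S : Finset ℕ, (∀ t ∈ S, t ∈ T) ∧ (S.card : ℝ) ≤ C * Real.log (Real.log N) ^ 2 ∧ 2 * ∑ t ∈ S, t ≤ N ∧
          GoodWindow ε V E D κ A N ((N : ℝ) - ((∑ t ∈ S, t : ℕ) : ℝ))) := by
  obtain ⟨N1, h1⟩ := good_of ε hε hε1 V E D κ hE
  constructor
  · intro σ _ b hb M hS a ha B U
    obtain ⟨N₀, h⟩ := Pool.Agent.Q26.TA.au_win b hb M hS a ha B (κ + (E + D + 2)) A U 1 one_pos le_rfl
    obtain ⟨N2, h2⟩ := sq_bound κ (E + D + 2) A (B + a.natAbs)
    refine ⟨N₀ + N1 + N2, fun N hN c hc => ?_⟩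
    obtain ⟨hL1, hsq, hpow⟩ := h2 N (by omega)
    refine le_trans ?_ (h N (by omega) c hc)
    apply Nat.cast_le.2
    apply card_le_card
    intro v hv
    unfold aut at hv
    rw [mem_filter, mem_filter] at hv
    rw [mem_filter]
    refine ⟨hv.1.1, hv.1.2, ?_⟩
    have hvN := mem_range.1 hv.1.1
    have h3 := hv.2
    unfold GoodWindow at h3
    push Not at h3
    obtain ⟨Q, h4, h5, h6⟩ := h3
    refine ⟨Q, by rw [Int.cast_natCast]; exact h4, h5.trans (mul_le_mul_of_nonneg_left hpow (Nat.cast_nonneg _)), fun hg => ?_⟩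
    refine h6 (h1 N (by omega) Q h5 ?_ hg)
    have e1 : ((c + a * v : ℤ) : ℝ) ≤ ((B + a.natAbs : ℕ) : ℝ) * N := by
      have e2 : (c + a * v : ℤ) ≤ ((B + a.natAbs : ℕ) : ℤ) * N := by
        have e3 : c ≤ (B : ℤ) * N := (le_abs_self c).trans hc
        have e4 : a * v ≤ (a.natAbs : ℤ) * N := by
          have e5 : a ≤ (a.natAbs : ℤ) := Int.le_natAbs
          have e6 : (v : ℤ) ≤ N := by exact_mod_cast hvN.le
          have e7 : (0 : ℤ) ≤ (a.natAbs : ℤ) := Int.natCast_nonneg _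
          calc a * v ≤ (a.natAbs : ℤ) * v := mul_le_mul_of_nonneg_right e5 (Int.natCast_nonneg _)
            _ ≤ _ := mul_le_mul_of_nonneg_left e6 e7
        push_cast
        push_cast at e4
        linarith
      have e8 : ((c + a * v : ℤ) : ℝ) ≤ ((((B + a.natAbs : ℕ) : ℤ) * N : ℤ) : ℝ) := Int.cast_le.2 e2
      refine e8.trans (le_of_eq ?_)
      rw [Int.cast_mul, Int.cast_natCast, Int.cast_natCast]
    have e9 := (abs_le.1 h4).2
    linarith
  · intro l hl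
    obtain ⟨C, hC⟩ := Pool.Agent.Q26.TA.las_win l (κ + (E + D + 2)) A hl
    obtain ⟨N₀, h0⟩ := hC 1 one_pos le_rfl
    obtain ⟨N2, h2⟩ := sq_bound κ (E + D + 2) A 1
    refine ⟨C, N₀ + N1 + N2, fun T hT N hN => ?_⟩
    obtain ⟨S, s1, s2, s3, s4⟩ := h0 T hT N (by omega)
    obtain ⟨hL1, hsq, hpow⟩ := h2 N (by omega)
    refine ⟨S, s1, s2, s3, fun Q hQ hQ2 => h1 N (by omega) Q hQ2 ?_ (s4 Q hQ)⟩
    have e9 := (abs_le.1 hQ).2
    have e10 : (0 : ℝ) ≤ ((∑ t ∈ S, t : ℕ) : ℝ) := Nat.cast_nonneg _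
    rw [Nat.cast_one, one_mul] at hsq
    linarith

end Pool.Agent.Results.MP_26a8c3_nt.AutomaticModuli
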