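import Pool.Agent.Results.MP_26a8c3_nt.SparseModuli
import Pool.Agent.Q319.DR.Fam

/-!
# The Brun–Titchmarsh inequality with the constant `1` for almost all classes to the moduli at the multiples of almost
all real numbers

* For `0 < θ < 1` there is `κ₀ > 0` such that for all real `y ∈ [N ^ (1 - θ), 2 N ^ (1 - θ)]` outside a set of measure
  at most `N ^ (1 - θ - κ₀)` ALL moduli `q` in the windows of radius `log ^ A N` around the multiples `k y`,
  `k ≤ N ^ θ`, with at most `N ^ θ / log ^ V N` exceptional `k`, are good moduli: for almost all reduced classes the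
  Brun–Titchmarsh inequality holds with the constant `1 + ε` instead of `2`, for all intervals.
* For almost every real `α > 0` ALL moduli `q` in the windows of radius `log ^ A (b k)` around the numbers `α b k` are
  good, for ALL large `k`; here `b` is an arbitrary sequence of integers with `b k ≥ exp (k ^ δ)`, for instance
  `b k = 2 ^ k`.

From Mathlib: `Nat.totient`: Euler's function `φ`; `volume`: the Lebesgue measure; `∀ᵐ α : ℝ`: for almost all real `α`;
`∀ᶠ k in atTop`: for all large `k`. The bound for almost all moduli is from the starting files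
(`Pool.Agent.Results.MP_26a8c3_nt.SparseModuli.families`), as well as the count of the elements of arbitrary sets of
integers in intervals at multiples of real numbers (`Pool.Agent.H438R2.DL`).
-/

set_option autoImplicit false

namespace Pool.Agent.Results.MP_26a8c3_nt.ModuliAtRealMultiples

open Finset MeasureTheory Filter

/-- `N(x, y; q, l)` for `0 ≤ y ≤ x` and `0 ≤ l < q`: the number of the primes `p` with `x - y < p ≤ x` and
`p ≡ l (mod q)` -/
noncomputable def cnt (x y : ℝ) (q l : ℕ) : ℕ :=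
  ((Ioc ⌊x - y⌋₊ ⌊x⌋₊).filter (fun p => p.Prime ∧ p % q = l)).card

open Classical in
/-- The modulus `q` is good: for all `l` with `0 ≤ l < q` and `gcd(l, q) = 1`, except for at most `φ(q) / (log q) ^ U` of
them, `N(x, y; q, l) ≤ (1 + ε) y / (φ(q) log q)` for ALL real `x`, `y` with
`q (log q) ^ E ≤ y ≤ x ≤ q (log q) ^ (E + D)`. -/
def Good (ε : ℝ) (U E D q : ℕ) : Prop :=
  (((range q).filter (fun l => Nat.Coprime l q ∧ ∃ x y : ℝ, q * Real.log q ^ E ≤ y ∧ y ≤ x ∧
    x ≤ q * Real.log q ^ (E + D) ∧ (1 + ε) * (y / (Nat.totient q * Real.log q)) < cnt x y q l)).card : ℝ) ≤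
    Nat.totient q / Real.log q ^ U

open Classical in
/-- The number of the `k` with `1 ≤ k ≤ K` for which not all integers `q` at a distance of at most `w` from `k y` have
the property `P`. -/
noncomputable def exceptions (K : ℝ) (y w : ℝ) (P : ℕ → Prop) : ℕ :=
  ((Icc 1 ⌊K⌋₊).filter (fun k : ℕ => ∃ q : ℕ, |(q : ℝ) - k * y| ≤ w ∧ ¬ P q)).card

lemma good_iff (ε : ℝ) (U E D q : ℕ) :
    Good ε U E D q ↔ Pool.Agent.Results.MP_26a8c3_nt.SparseModuli.Holds ε U E D q := Iff.rfl

lemma sparse (ε : ℝ) (hε : 0 < ε) (hε1 : ε ≤ 1) (U E D : ℕ) (hE : 2 * D + U + 2 ≤ E) :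
    Pool.Agent.Q319.DR.Sparse (fun _ q => ¬ Good ε U E D q) := by
  classical
  apply Pool.Agent.Q319.DR.sparse_own
  intro V
  obtain ⟨N₀, h0⟩ := Pool.Agent.Results.MP_26a8c3_nt.SparseModuli.families ε hε hε1 E D U V hE 1 0 V
  refine ⟨N₀, fun N hN S hS hSb => ?_⟩
  have h1 := h0 N hN (Fin N) (Pool.Agent.Q319.DR.idf N) (fun i => Pool.Agent.Q319.DR.idf_abs N i) (by
    have h2 : Pool.Agent.Results.MP_26a8c3_nt.SparseModuli.energy 1 (Pool.Agent.Q319.DR.idf N) = N :=
      Pool.Agent.Q319.DR.energy_idf N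
    rw [h2, Fintype.card_fin, pow_zero, one_mul]
    apply le_of_eq
    ring)
  rw [Fintype.card_fin] at h1
  refine le_trans ?_ h1
  apply Nat.cast_le.2
  refine (Pool.Agent.Q319.DR.set_of_fam N (fun a => 0 < a ∧ (N : ℝ) ≤ a * Real.log N ^ V ∧
    ¬ Pool.Agent.Results.MP_26a8c3_nt.SparseModuli.Holds ε U E D a.toNat) S hS ?_)
  intro q hq
  obtain ⟨h3, h4⟩ := hSb q hq
  have h5 := mem_Icc.1 (hS hq)
  refine ⟨by exact_mod_cast h5.1, by rw [Int.cast_natCast]; exact h3, ?_⟩
  rw [Int.toNat_natCast, ← good_iff]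
  exact h4

/-- Let `U`, `D` and `E ≥ 2 D + U + 2` be fixed.

* Let `0 < θ < 1`. There is `κ₀ > 0` such that for all `A`, `V`, `0 < ε ≤ 1` and all large `N` there is a set `E₀` of
  real numbers of measure at most `N ^ (1 - θ - κ₀)` with the following property. Let `y` be a real number with
  `N ^ (1 - θ) ≤ y ≤ 2 N ^ (1 - θ)` which does not belong to `E₀`. For all `k ≤ N ^ θ`, with at most
  `N ^ θ / log ^ V N` exceptions, ALL integers `q` with `|q - k y| ≤ log ^ A N` satisfy: for all reduced classes `l`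
  modulo `q`, except for at most `φ(q) / (log q) ^ U` of them, `N(x, y; q, l) ≤ (1 + ε) y / (φ(q) log q)` for ALL real
  `x`, `y` with `q (log q) ^ E ≤ y ≤ x ≤ q (log q) ^ (E + D)`.
* Let `b` be a sequence of natural numbers with `b k ≥ exp (k ^ δ)` for all large `k`, where `δ > 0`. For almost every
  real number `α > 0` the following holds for all `A` and all `n`: for all large `k` ALL integers `q` with
  `|q - α b k| ≤ log ^ A (b k)` have the same property with `ε = 1 / (n + 1)`. -/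
theorem result (U E D : ℕ) (hE : 2 * D + U + 2 ≤ E) :
    (∀ θ : ℝ, 0 < θ → θ < 1 → ∃ κ₀ : ℝ, 0 < κ₀ ∧ ∀ (A V : ℕ) (ε : ℝ), 0 < ε → ε ≤ 1 → ∃ N₀ : ℕ, ∀ N : ℕ, N₀ ≤ N →
      ∃ E₀ : Set ℝ, MeasurableSet E₀ ∧ volume E₀ ≤ ENNReal.ofReal ((N : ℝ) ^ (1 - θ - κ₀)) ∧
        ∀ y : ℝ, (N : ℝ) ^ (1 - θ) ≤ y → y ≤ 2 * (N : ℝ) ^ (1 - θ) → y ∉ E₀ →
          (exceptions ((N : ℝ) ^ θ) y (Real.log N ^ A) (Good ε U E D) : ℝ) ≤ (N : ℝ) ^ θ / Real.log N ^ V) ∧
    (∀ (b : ℕ → ℕ) (δ : ℝ), 0 < δ → (∀ᶠ k : ℕ in atTop, Real.exp ((k : ℝ) ^ δ) ≤ b k) →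
      ∀ᵐ α : ℝ, 0 < α → ∀ A n : ℕ, ∀ᶠ k : ℕ in atTop,
        ∀ q : ℕ, |(q : ℝ) - α * b k| ≤ Real.log (b k) ^ A → Good (1 / ((n : ℝ) + 1)) U E D q) := by
  classical
  constructor
  · intro θ hθ hθ1
    obtain ⟨κ₀, hκ₀, h⟩ := Pool.Agent.Q319.DR.mult_few θ hθ hθ1
    exact ⟨κ₀, hκ₀, fun A V ε hε hε1 => h _ (sparse ε hε hε1 U E D hE) A V⟩
  · intro b δ hδ hb
    have h1 := Pool.Agent.Q319.DR.lac_all_count (fun n _ q => ¬ Good (1 / ((n : ℝ) + 1)) U E D q) (fun n =>
      sparse (1 / ((n : ℝ) + 1)) (by positivity) (by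
        rw [div_le_one (by positivity)]
        have : (0 : ℝ) ≤ n := Nat.cast_nonneg _
        linarith) U E D hE) b δ hδ hb
    filter_upwards [h1] with α hα hα0 A n
    filter_upwards [hα hα0 A n] with k hk q hq
    exact not_not.1 (hk q hq)

end Pool.Agent.Results.MP_26a8c3_nt.ModuliAtRealMultiples
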