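import Pool.Agent.Q44.LogS
import Pool.Agent.Results.MP_26a8c3_nt.ModuliAtRealMultiples

/-!
# The Brun–Titchmarsh inequality with the constant `1` for almost all classes to the moduli given by continued fractions

The modulus `q` is good if for all reduced classes `l` modulo `q`, except for at most `φ(q) / (log q) ^ U` of them, the
number of the primes `p ≡ l (mod q)` with `x - y < p ≤ x` is at most `(1 + ε) y / (φ(q) log q)` for ALL real `x`, `y`
with `q (log q) ^ E ≤ y ≤ x ≤ q (log q) ^ (E + D)`. For almost every real number `α` and all integers
`(u, v) ≠ (0, 0)` the moduli `|u p + v q|` are good for all but finitely many convergents `p / q` of the continued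
fraction of `α`; in particular the denominators and the numerators. More generally, in every dimension `d`, for almost
every `α` in `ℝ ^ d` the absolute value of every linear form in the denominator `x₀` and the numerators `x₁, …, x_d` of
the simultaneous rational approximations of `α` with `|α_j - x_j / x₀| ≤ (1 + log x₀) ^ T x₀ ^ (-(1 + 1/d))` is a good
modulus, for all but finitely many of them (by Dirichlet's theorem every `α` has infinitely many of them).
-/

set_option autoImplicit false

namespace Pool.Agent.Results.MP_26a8c3_nt.GoodApproximations

open Finset Pool.Agent.Q44.CF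

/-- `N(x, y; q, l)` for `0 ≤ y ≤ x` and `0 ≤ l < q`: the number of the primes `p` with `x - y < p ≤ x` and
`p ≡ l (mod q)` -/
noncomputable def cnt (x y : ℝ) (q l : ℕ) : ℕ :=
  ((Ioc ⌊x - y⌋₊ ⌊x⌋₊).filter (fun p => p.Prime ∧ p % q = l)).card

open Classical in
/-- The modulus `q` is good: for all `l` with `0 ≤ l < q` and `gcd(l, q) = 1`, except for at most `φ(q) / (log q) ^ U` of
them, `N(x, y; q, l) ≤ (1 + ε) y / (φ(q) log q)` for ALL real `x`, `y` with
`q (log q) ^ E ≤ y ≤ x ≤ q (log q) ^ (E + D)`. -/
def Good (ε : ℝ) (U E D q : ℕ) : Prop :=
  (((range q).filter (fun l => Nat.Coprime l q ∧ ∃ x y : ℝ, q * Real.log q ^ E ≤ y ∧ y ≤ x ∧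
    x ≤ q * Real.log q ^ (E + D) ∧ (1 + ε) * (y / (Nat.totient q * Real.log q)) < cnt x y q l)).card : ℝ) ≤
    Nat.totient q / Real.log q ^ U

/-- **Theorem.** In the sense of `AtDirichletApproximations` (linear forms in the denominators and the numerators of the
convergents of the continued fractions of almost all real numbers, and of the good simultaneous rational approximations
of almost all points of `ℝ ^ d`) the moduli `q` are good: the Brun–Titchmarsh inequality holds with the constant
`1 + ε` instead of `2` for all but at most `φ(q) / (log q) ^ U` reduced classes, for all intervals. -/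
theorem result (U E D : ℕ) (hE : 2 * D + U + 2 ≤ E) (ε : ℝ) (hε : 0 < ε) (hε1 : ε ≤ 1) :
    AtDirichletApproximations (Good ε U E D) := by
  have h1 := Pool.Agent.Results.MP_26a8c3_nt.ModuliAtRealMultiples.sparse ε hε hε1 U E D hE
  exact atLog_of (logFew_of_sparse h1 0) fun q hq => Or.inl hq

end Pool.Agent.Results.MP_26a8c3_nt.GoodApproximations
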