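import Pool.Agent.Results.MP_26a8c3_nt.SparseModuli
import Pool.Agent.Q56.TF.Resc

/-!
# The Brun–Titchmarsh inequality with the constant `1` for almost all classes to all moduli near almost all members of
a real sequence

The moduli `q` are arbitrary integers with `|q - r m| ≤ log ^ A N` and `q ≥ N / log ^ κ N`, for almost all `m ≤ x`,
where `r 1, ..., r x` is an arbitrary family of real numbers of nearly minimal energy; for instance the (real) values
`β + κ₀ f m` of a polynomial `f` with integer coefficients, with arbitrary real `κ₀ ≠ 0` and `β`, or of a generalised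
polynomial `f t = ∑ w_y t ^ y` whose largest exponent is greater than `1` and not an integer (`f t = t ^ c`: the
sequences of Piatetski-Shapiro).

From Mathlib: `Nat.totient`: Euler's function `φ`; `Polynomial ℤ`, `f.eval m`: polynomials and their values. The bound
for families of integers is from the starting files (`Pool.Agent.Results.MP_26a8c3_nt.SparseModuli.families`).
-/

set_option autoImplicit false

namespace Pool.Agent.Results.MP_26a8c3_nt.ModuliNearRealSequences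

open Finset

open Classical in
/-- The energy of order `p` of the family of real numbers `r 1, ..., r x`: the number of the pairs `v`, `w` of
`p`-tuples of elements of `{1, ..., x}` such that `r (v 1) + ... + r (v p)` and `r (w 1) + ... + r (w p)` differ
by at most `1`. -/
noncomputable def energy (p x : ℕ) (r : ℕ → ℝ) : ℕ :=
  (((Fintype.piFinset fun _ : Fin p => Icc 1 x) ×ˢ (Fintype.piFinset fun _ : Fin p => Icc 1 x)).filter
    (fun q => |∑ i, r (q.1 i) - ∑ i, r (q.2 i)| ≤ 1)).card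

/-- `N(x, y; q, l)` for `0 ≤ y ≤ x` and `0 ≤ l < q`: the number of the primes `p` with `x - y < p ≤ x` and
`p ≡ l (mod q)` -/
noncomputable def cnt (x y : ℝ) (q l : ℕ) : ℕ :=
  ((Ioc ⌊x - y⌋₊ ⌊x⌋₊).filter (fun p => p.Prime ∧ p % q = l)).card

open Classical in
/-- The modulus `q` is good: for all `l` with `0 ≤ l < q` and `gcd(l, q) = 1`, except for at most `φ(q) / (log q) ^ U` of
them, `N(x, y; q, l) ≤ (1 + ε) y / (φ(q) log q)` for ALL real `x`, `y` with
`q (log q) ^ E ≤ y ≤ x ≤ q (log q) ^ (E + D)`. -/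
def Good (ε : ℝ) (U E D q : ℕ) : Prop :=
  (((range q).filter (fun l => Nat.Coprime l q ∧ ∃ x y : ℝ, q * Real.log q ^ E ≤ y ∧ y ≤ x ∧
    x ≤ q * Real.log q ^ (E + D) ∧ (1 + ε) * (y / (Nat.totient q * Real.log q)) < cnt x y q l)).card : ℝ) ≤
    Nat.totient q / Real.log q ^ U

open Classical in
/-- The number of the `m` in `{1, ..., x}` for which not all integers `q ≥ N / log ^ κ N` at a distance of at most `w`
from `r m` have the property `G`. -/
noncomputable def exceptions (κ N x : ℕ) (r : ℕ → ℝ) (w : ℝ) (G : ℕ → Prop) : ℕ :=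
  ((Icc 1 x).filter (fun m => ∃ q : ℕ, (N : ℝ) ≤ q * Real.log N ^ κ ∧ |(q : ℝ) - r m| ≤ w ∧ ¬ G q)).card

/-- The bound at scale `N` for the windows around the `r m`, `m ≤ x`: for all `m ≤ x` with at most `x / log ^ V N`
exceptions all integers `q ≥ N / log ^ κ N` with `|q - r m| ≤ log ^ A N` are good moduli. -/
def Holds (ε : ℝ) (A U V E D κ N x : ℕ) (r : ℕ → ℝ) : Prop :=
  (exceptions κ N x r (Real.log N ^ A) (Good ε U E D) : ℝ) ≤ x / Real.log N ^ V

/-- The sequence `f`, of growth `x ^ e`, has the property at all large scales: for all `x` with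
`N / log ^ C N ≤ x ^ e ≤ B N` and all translates `β + f m`, `|β| ≤ B N`. -/
def Sequence (ε : ℝ) (A B C U V E D κ : ℕ) (f : ℕ → ℝ) (e : ℝ) : Prop :=
  ∃ N₀ : ℕ, ∀ N : ℕ, N₀ ≤ N → ∀ x : ℕ, (x : ℝ) ^ e ≤ B * N → (N : ℝ) ≤ Real.log N ^ C * (x : ℝ) ^ e →
    ∀ β : ℝ, |β| ≤ B * N → Holds ε A U V E D κ N x (fun m => β + f m)

lemma good_iff (ε : ℝ) (U E D q : ℕ) :
    Good ε U E D q ↔ Pool.Agent.Results.MP_26a8c3_nt.SparseModuli.Holds ε U E D q := Iff.rfl

lemma holds_of (A B' U V E D κ p C' : ℕ) (hE : 2 * D + U + 2 ≤ E) (hB1 : 1 ≤ B') (ε : ℝ) (hε : 0 < ε) (hε1 : ε ≤ 1) :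
    ∃ N₀ : ℕ, ∀ N : ℕ, N₀ ≤ N → ∀ (x : ℕ) (r : ℕ → ℝ), Pool.Agent.Q56.TF.Near A p B' C' N x r →
      Holds ε A U V E D κ N x r := by
  classical
  obtain ⟨N₁, h1⟩ := Pool.Agent.Results.MP_26a8c3_nt.SparseModuli.families ε hε hε1 E D U V hE p (C' + 1) (κ + 1)
  obtain ⟨N₂, h2⟩ := Pool.Agent.Q56.TF.near_resc A p B' C' V hB1
  obtain ⟨N₃, h3⟩ := Pool.Agent.Q56.TF.rescale B' κ hB1
  refine ⟨N₁ + N₂ + N₃ + 1, fun N hN x r hm => ?_⟩
  obtain ⟨hL1, hLL, hκ⟩ := h3 N (by omega)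
  have hN' : N₁ ≤ B' * N := by nlinarith
  have hN0 : (0 : ℝ) < N := by exact_mod_cast (by omega : 0 < N)
  refine h2 N (by omega) x r hm (fun a : ℤ => 0 < a ∧
    ((B' * N : ℕ) : ℝ) ≤ a * Real.log ((B' * N : ℕ) : ℝ) ^ (κ + 1) ∧
    ¬ Pool.Agent.Results.MP_26a8c3_nt.SparseModuli.Holds ε U E D a.toNat) ?_ _ (filter_subset _ _) ?_
  · intro ι _ v hv hE S hS
    refine le_trans ?_ (h1 (B' * N) hN' ι v hv hE)
    apply Nat.cast_le.2
    apply card_le_card
    intro i hi
    exact mem_filter.2 ⟨mem_univ _, hS i hi⟩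
  · intro m hm
    obtain ⟨_, q, hq1, hq2, hq3⟩ := mem_filter.1 hm
    have hq0 : 0 < q := by
      by_contra hcon
      have : q = 0 := by omega
      rw [this] at hq1
      simp at hq1
      omega
    refine ⟨(q : ℤ), by exact_mod_cast hq2, by exact_mod_cast hq0, ?_, by rw [Int.toNat_natCast, ← good_iff]; exact hq3⟩
    rw [Int.cast_natCast]
    calc ((B' * N : ℕ) : ℝ) = B' * N := by push_cast; ring
      _ ≤ B' * (q * Real.log N ^ κ) := by gcongr
      _ = q * (B' * Real.log N ^ κ) := by ring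
      _ ≤ _ := by gcongr

lemma sequence_of {f : ℕ → ℝ} {e : ℝ} (h : Pool.Agent.Q56.TF.Base f e) (he : 1 ≤ e) (A B C U V E D κ : ℕ)
    (hE : 2 * D + U + 2 ≤ E) (ε : ℝ) (hε : 0 < ε) (hε1 : ε ≤ 1) : Sequence ε A B C U V E D κ f e := by
  obtain ⟨p, B', C', N₀, h1⟩ := Pool.Agent.Q56.TF.near_base h he A B C
  obtain ⟨N₁, h2⟩ := holds_of A (B' + 1) U V E D κ p C' hE (by omega) ε hε hε1
  exact ⟨N₀ + N₁, fun N hN x hx1 hx2 β hβ =>
    h2 N (by omega) x _ ((h1 N (by omega) x hx1 hx2 β hβ).mono (by omega))⟩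

/-- Let `A`, `B`, `C`, `U`, `V`, `D`, `E ≥ 2 D + U + 2`, `κ` and `0 < ε ≤ 1` be fixed.

* For every `p` the following holds for all large `N`. Let `r 1, ..., r x` be an arbitrary family of real numbers in
  `[-B N, B N]` with an energy of order `p` of at most `log ^ C N` times `x ^ (2 p) / N` (the minimal possible order
  of magnitude). For all `m ≤ x` with at most `x / log ^ V N` exceptions, ALL moduli `q` with `|q - r m| ≤ log ^ A N`
  and `q ≥ N / log ^ κ N` satisfy: for all reduced classes `l` modulo `q`, except for at most `φ(q) / (log q) ^ U` of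
  them, `N(x, y; q, l) ≤ (1 + ε) y / (φ(q) log q)` for ALL real `x`, `y` with
  `q (log q) ^ E ≤ y ≤ x ≤ q (log q) ^ (E + D)`.
* This holds for `r m = β + κ₀ f m`, `m ≤ x`, where `f` is a fixed nonconstant polynomial with integer
  coefficients, of degree `d`, `κ₀ ≠ 0` is a fixed real number, `β` is any real number with `|β| ≤ B N`, and
  `N / log ^ C N ≤ x ^ d ≤ B N`.
* This holds for `r m = β + ∑ w_y m ^ y` (a sum over a finite set of real exponents `y`), if the largest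
  exponent `e` is greater than `1` and not an integer, `w_e ≠ 0`, `|β| ≤ B N` and `N / log ^ C N ≤ x ^ e ≤ B N`; for
  instance for `r m = β + m ^ e`. -/
theorem result (A B C U V E D κ : ℕ) (hE : 2 * D + U + 2 ≤ E) (ε : ℝ) (hε : 0 < ε) (hε1 : ε ≤ 1) :
    (∀ p : ℕ, ∃ N₀ : ℕ, ∀ N : ℕ, N₀ ≤ N → ∀ (x : ℕ) (r : ℕ → ℝ), (∀ m ∈ Icc 1 x, |r m| ≤ B * N) →
      (energy p x r : ℝ) * N ≤ Real.log N ^ C * (x : ℝ) ^ (2 * p) → Holds ε A U V E D κ N x r) ∧
    (∀ f : Polynomial ℤ, 1 ≤ f.natDegree → ∀ κ₀ : ℝ, κ₀ ≠ 0 →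
      Sequence ε A B C U V E D κ (fun m => κ₀ * ((f.eval (m : ℤ) : ℤ) : ℝ)) f.natDegree) ∧
    (∀ (F : Finset ℝ) (w : ℝ → ℝ) (e : ℝ), e ∈ F → (∀ y ∈ F, y ≤ e) → w e ≠ 0 → 1 < e → (∀ k : ℕ, e ≠ k) →
      Sequence ε A B C U V E D κ (fun m => ∑ y ∈ F, w y * (m : ℝ) ^ y) e) := by
  classical
  refine ⟨fun p => ?_, fun f hd κ₀ hκ => ?_, fun F w e heF hmax hwe he hen => ?_⟩
  · obtain ⟨B', C', N₀, h1⟩ := Pool.Agent.Q56.TF.near_gen p A B C
    obtain ⟨N₁, h2⟩ := holds_of A (B' + 1) U V E D κ p C' hE (by omega) ε hε hε1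
    exact ⟨N₀ + N₁, fun N hN x r hr hE => h2 N (by omega) x _ ((h1 N (by omega) x r hr hE).mono (by omega))⟩
  · exact sequence_of ((Pool.Agent.Q56.TF.base_poly f hd).dil hκ) (by exact_mod_cast hd) A B C U V E D κ hE ε hε hε1
  · exact sequence_of (Pool.Agent.Q56.TF.base_gp F w e heF hmax hwe he hen) he.le A B C U V E D κ hE ε hε hε1

end Pool.Agent.Results.MP_26a8c3_nt.ModuliNearRealSequences
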